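import Mathlib

open unitInterval Function

namespace Pool.Agent.Results.MP_0a04b1_lc.No

/-- The multiplication graph of a group `G`, carried to `E` by the bijection `e`. -/
def Rep {G E : Type} [Group G] (e : G ≃ E) : Set (E × E × E) :=
  {p | e.symm p.1 * e.symm p.2.1 = e.symm p.2.2}

/-- `P` is a partition of `A` into `m` pairwise disjoint pieces. -/
def IsPart {X : Type} {m : ℕ} (P : Fin m → Set X) (A : Set X) : Prop :=
  Pairwise (Disjoint on P) ∧ ⋃ i, P i = A

/-- Product-isomorphic under decomposition: one bijection per piece. -/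
def DecIso {E : Type} (A B : Set (E × E × E)) : Prop :=
  ∃ (m : ℕ) (P Q : Fin m → Set (E × E × E)), IsPart P A ∧ IsPart Q B ∧
    ∀ i, ∃ f : E ≃ E, (fun p => (f p.1, f p.2.1, f p.2.2)) '' P i = Q i

/-- The weak variant: three bijections per piece. -/
def WeakDecIso {E : Type} (A B : Set (E × E × E)) : Prop :=
  ∃ (m : ℕ) (P Q : Fin m → Set (E × E × E)), IsPart P A ∧ IsPart Q B ∧
    ∀ i, ∃ f g h : E ≃ E, (fun p => (f p.1, g p.2.1, h p.2.2)) '' P i = Q i

lemma cube (t : I ≃ₜ I) (h : t * t * t = 1) : t = 1 := by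
  have e : ∀ x, t (t (t x)) = x := fun x => DFunLike.congr_fun h x
  rcases t.continuous.strictMono_of_inj_boundedOrder' t.injective with m | m
  · ext1 x
    rcases lt_trichotomy (t x) x with p | p | p
    · exact absurd (e x) ((m (m p)).trans ((m p).trans p)).ne
    · exact p
    · exact absurd (e x) (p.trans ((m p).trans (m (m p)))).ne'
  · have := m (m (m zero_lt_one))
    rw [e, e] at this
    exact absurd this (not_lt.2 zero_le_one)

theorem result (E : Type) (α : Equiv.Perm ℤ ≃ E) (τ : (I ≃ₜ I) ≃ E) :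
    ¬ DecIso (Rep α) (Rep τ) := by
  suffices ¬ WeakDecIso (Rep α) (Rep τ) from
    fun ⟨m, P, Q, a, b, c⟩ => this ⟨m, P, Q, a, b, fun i => let ⟨f, h⟩ := c i; ⟨f, f, f, h⟩⟩
  rintro ⟨m, P, Q, ⟨-, hP⟩, ⟨-, hQ⟩, h⟩
  obtain ⟨ι, _, H⟩ := Combinatorics.Line.exists_mono_in_high_dimension (ZMod 3 × ZMod 3) (Fin m)
  obtain ⟨j, hj⟩ := Countable.exists_injective_nat (Multiplicative (ι → ZMod 3))
  let ρ := (Equiv.Perm.viaEmbeddingHom ⟨fun x => (j x : ℤ), Nat.cast_injective.comp hj⟩).comp
    (MulAction.toPermHom (Multiplicative (ι → ZMod 3)) (Multiplicative (ι → ZMod 3)))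
  have hρ : Injective ρ := (Equiv.Perm.viaEmbeddingHom_injective _).comp MulAction.toPerm_injective
  let s : (ι → ZMod 3) → E := fun x => α (ρ (.ofAdd x))
  have hs : Injective s := α.injective.comp (hρ.comp Multiplicative.ofAdd.injective)
  have : ∀ x y, ∃ i, (s x, s y, s (x + y)) ∈ P i := fun x y => by
    rw [← Set.mem_iUnion, hP]
    simp [Rep, s]
  choose C hC using this
  obtain ⟨l, c, hl⟩ := H fun w => C (fun i => (w i).1) fun i => (w i).2
  obtain ⟨f, g, k, e⟩ := h c
  let x : ZMod 3 → ι → ZMod 3 := fun a i => (l (a, 0) i).1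
  let y : ZMod 3 → ι → ZMod 3 := fun a i => (l (0, a) i).2
  have r : ∀ a b, τ.symm (f (s (x a))) * τ.symm (g (s (y b))) = τ.symm (k (s (x (a + b) + y 0))) := fun a b => by
    have p := hC (fun i => (l (a, b) i).1) fun i => (l (a, b) i).2
    rw [show C _ _ = c from hl (a, b)] at p
    have q := Set.mem_image_of_mem (fun p : E × E × E => (f p.1, g p.2.1, k p.2.2)) p
    rw [e] at q
    have u : (fun i => (l (a, b) i).1) = x a := by ext i; cases u : l.idxFun i <;> simp [x, u]
    have v : (fun i => (l (a, b) i).2) = y b := by ext i; cases u : l.idxFun i <;> simp [y, u]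
    have w : x a + y b = x (a + b) + y 0 := by ext i; cases u : l.idxFun i <;> simp [x, y, u]
    rw [u, v, w] at q
    exact hQ.subset (Set.mem_iUnion.2 ⟨c, q⟩)
  have r1 := (r 0 1).trans (r 1 0).symm
  have r2 := (r 0 2).trans (r 1 1).symm
  have r3 := (r 0 0).trans (r 1 2).symm
  rw [← inv_mul_eq_iff_eq_mul, ← mul_assoc] at r1 r2 r3
  have := cube ((τ.symm (f (s (x 1))))⁻¹ * τ.symm (f (s (x 0)))) (by
    rw [← mul_left_inj (τ.symm (g (s (y 0)))), mul_assoc, r3, mul_assoc, r2, r1, one_mul])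
  rw [inv_mul_eq_one, τ.symm.apply_eq_iff_eq, f.apply_eq_iff_eq, hs.eq_iff] at this
  obtain ⟨i, u⟩ := l.proper
  simpa [x, u] using congrFun this i

end Pool.Agent.Results.MP_0a04b1_lc.No
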